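import Mathlib

set_option autoImplicit false

namespace Pool.Agent.H.MP_e40715_an

open MeasureTheory Set Filter Topology
open scoped ENNReal

theorem fatou {X : Type*} [MeasurableSpace X] {μ : Measure X} {E : Set X} {A : ℕ → Set X}
    {δ : ℝ≥0∞} (h : ∀ᵐ x ∂μ, x ∈ E → ∀ᶠ k in atTop, x ∈ A k) (hA : ∀ k, μ (A k) ≤ δ) :
    μ E ≤ δ := by
  have m : Monotone fun N => ⋂ k ≥ N, A k := fun a b h =>
    biInter_subset_biInter_left fun k hk => h.trans hk
  refine (measure_mono_ae (t := ⋃ N, ⋂ k ≥ N, A k) ?_).trans ?_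
  · filter_upwards [h] with x hx e
    obtain ⟨N, hN⟩ := eventually_atTop.1 (hx e)
    exact mem_iUnion.2 ⟨N, mem_iInter₂.2 hN⟩
  · rw [m.measure_iUnion]
    exact iSup_le fun N => (measure_mono (biInter_subset_of_mem (le_refl N))).trans (hA N)

variable {μ : Measure ℝ} [IsProbabilityMeasure μ] {p : ℝ≥0∞} [Fact (1 ≤ p)]

omit [IsProbabilityMeasure μ] in
theorem clos {T : Lp ℂ p μ →L[ℂ] Lp ℂ p μ} {S : Set (Lp ℂ p μ)} (hS : Dense S)
    {U : ℝ → Set (ℂ × ℂ)} (hU : ∀ x, IsOpen (U x)) {δ : ℝ≥0∞}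
    (h : ∀ g ∈ S, μ {x | (g x, T g x) ∈ U x} ≤ δ) (b : Lp ℂ p μ) :
    μ {x | (b x, T b x) ∈ U x} ≤ δ := by
  obtain ⟨g, g1, g2⟩ := mem_closure_iff_seq_limit.1 (hS b)
  obtain ⟨u, u1, u2⟩ := (tendstoInMeasure_of_tendsto_Lp g2).exists_seq_tendsto_ae
  obtain ⟨v, v1, v2⟩ := (tendstoInMeasure_of_tendsto_Lp (((T.continuous.tendsto b).comp g2).comp
    u1.tendsto_atTop)).exists_seq_tendsto_ae
  refine fatou (A := fun k => {x | (g (u (v k)) x, T (g (u (v k))) x) ∈ U x}) ?_ fun k => h _ (g1 _)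
  filter_upwards [u2, v2] with x h1 h2 e
  exact ((h1.comp v1.tendsto_atTop).prodMk_nhds h2).eventually ((hU x).mem_nhds e)

theorem main {R : ℝ → ℝ} (hR : MeasurePreserving R μ μ) {φ : ℝ → ℂ}
    {T : Lp ℂ p μ →L[ℂ] Lp ℂ p μ} (hT : ∀ g, T g =ᵐ[μ] fun x => φ x * g (R x)) (f : Lp ℂ p μ) :
    ¬ Dense (range fun n : ℕ => (T ^ n) f) := by
  intro hS
  have it : ∀ n : ℕ, ∃ ψ : ℝ → ℂ, ∀ g, (T ^ n) g =ᵐ[μ] fun x => ψ x * g (R^[n] x) := by
    intro n
    induction n with
    | zero => exact ⟨1, fun g => by simp⟩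
    | succ n ih =>
      obtain ⟨ψ, h⟩ := ih
      refine ⟨fun x => φ x * ψ (R x), fun g => ?_⟩
      filter_upwards [hT ((T ^ n) g), hR.quasiMeasurePreserving.ae (h g)] with x h1 h2
      rw [pow_succ', mul_apply_eq_comp, h1, h2, mul_assoc, Function.iterate_succ_apply]
  have nm : ∀ {U : Set (ℂ × ℂ)}, IsOpen U → NullMeasurableSet {x | (f x, T f x) ∈ U} μ :=
    fun hU => ((Lp.aestronglyMeasurable f).prodMk
      (Lp.aestronglyMeasurable (T f))).aemeasurable.nullMeasurable hU.measurableSet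
  have cone : ∀ U : Set (ℂ × ℂ), IsOpen U → (∀ c a b : ℂ, (c * a, c * b) ∈ U → (a, b) ∈ U) →
      ∀ b : Lp ℂ p μ, μ {x | (b x, T b x) ∈ U} ≤ μ {x | (f x, T f x) ∈ U} := by
    intro U hU hc
    refine clos hS (U := fun _ => U) (fun _ => hU) ?_
    rintro _ ⟨n, rfl⟩
    obtain ⟨ψ, h⟩ := it n
    rw [← (hR.iterate n).measure_preimage (nm hU)]
    refine measure_mono_ae ?_
    filter_upwards [h f, h (T f)] with x h1 h2 e
    have : T ((T ^ n) f) = (T ^ n) (T f) := by
      rw [← mul_apply_eq_comp, ← pow_succ', pow_succ, mul_apply_eq_comp]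
    refine hc (ψ x) _ _ ?_
    rwa [← h1, ← h2, ← this]
  have f0 : ∀ᵐ x ∂μ, f x ≠ 0 := by
    have o : IsOpen {q : ℂ × ℂ | q.1 ≠ 0} := isOpen_ne_fun continuous_fst continuous_const
    have := cone _ o (fun c a b h => right_ne_zero_of_mul h) (Lp.const p μ 1)
    rw [measure_congr (t := univ) (by
      filter_upwards [Lp.coeFn_const p μ (1 : ℂ)] with x hx
      exact eq_true (show Lp.const p μ 1 x ≠ 0 by simp [hx])), measure_univ] at this
    exact (prob_compl_eq_zero_iff₀ (nm o)).2 (le_antisymm prob_le_one this)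
  have z : ∀ b : Lp ℂ p μ, ∀ᵐ x ∂μ, b x = 0 → T b x = 0 := by
    intro b
    have o : ∀ M : ℕ, IsOpen {q : ℂ × ℂ | M * ‖q.1‖ < ‖q.2‖} := fun M =>
      isOpen_lt (by fun_prop) (by fun_prop)
    have t := tendsto_measure_iInter_atTop (fun M => nm (o M)) (fun M N h x hx =>
      lt_of_le_of_lt (mul_le_mul_of_nonneg_right (by exact_mod_cast h) (norm_nonneg _)) hx)
      ⟨0, measure_ne_top _ _⟩
    rw [measure_mono_null (t := {x | ¬ f x ≠ 0}) (fun x hx e => by
      obtain ⟨M, hM⟩ := exists_nat_gt (‖T f x‖ / ‖f x‖)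
      rw [div_lt_iff₀ (norm_pos_iff.2 e)] at hM
      exact hM.not_gt (mem_iInter.1 hx M)) f0] at t
    refine le_zero_iff.1 (ge_of_tendsto' t fun M => le_trans (measure_mono fun x hx => ?_)
      (cone _ (o M) (fun c a b h => ?_) b))
    · have hx : ¬ (b x = 0 → T b x = 0) := hx
      push Not at hx
      simp [hx]
    · simp only [mem_ofPred_eq, norm_mul] at *
      exact lt_of_mul_lt_mul_left (by linarith) (norm_nonneg c)
  have w : ∀ B : Set ℝ, MeasurableSet B → ∀ᵐ x ∂μ, φ x ≠ 0 → R x ∈ B → x ∈ B := by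
    intro B hB
    have e := indicatorConstLp_coeFn (p := p) (hs := hB) (hμs := measure_ne_top μ B) (c := (1 : ℂ))
    filter_upwards [z (indicatorConstLp p hB (measure_ne_top μ B) 1), e,
      hR.quasiMeasurePreserving.ae e, hT (indicatorConstLp p hB (measure_ne_top μ B) 1)]
      with x h1 h2 h3 h4 a b
    by_contra c
    rw [h4, h3, h2] at h1
    simp [a, b, c] at h1
  have fx : ∀ᵐ x ∂μ, φ x ≠ 0 → R x = x := by
    filter_upwards [ae_all_iff.2 fun q : ℚ => w (Iio q) measurableSet_Iio,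
      ae_all_iff.2 fun q : ℚ => w (Ioi q) measurableSet_Ioi] with x h1 h2 a
    rcases lt_trichotomy (R x) x with c | c | c
    · obtain ⟨q, q1, q2⟩ := exists_rat_btwn c
      exact absurd (h1 q a q1) q2.not_gt
    · exact c
    · obtain ⟨q, q1, q2⟩ := exists_rat_btwn c
      exact absurd (h2 q a q2) q1.not_gt
  have pw : ∀ n : ℕ, (T ^ n) f =ᵐ[μ] fun x => φ x ^ n * f x := by
    intro n
    induction n with
    | zero => simp
    | succ n ih =>
      filter_upwards [hT ((T ^ n) f), ih, fx] with x h1 h2 h3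
      rw [pow_succ', mul_apply_eq_comp, h1]
      by_cases a : φ x = 0
      · simp [a]
      · rw [h3 a, h2]; ring
  have fin := clos (T := T) hS (δ := 0)
    (U := fun x => {q | ‖φ x‖ ≤ 1 ∧ ‖f x‖ < ‖q.1‖} ∪ {q | 1 ≤ ‖φ x‖ ∧ ‖q.1‖ < ‖f x‖})
    (fun x => (isOpen_const.inter (isOpen_lt continuous_const continuous_fst.norm)).union
      (isOpen_const.inter (isOpen_lt continuous_fst.norm continuous_const))) (by
      rintro _ ⟨n, rfl⟩
      refine (measure_eq_zero_iff_ae_notMem.2 ?_).le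
      filter_upwards [pw n] with x hx
      simp only [mem_ofPred_eq, mem_union, hx, norm_mul, norm_pow]
      rintro (⟨a, b⟩ | ⟨a, b⟩)
      · nlinarith [pow_le_one₀ (n := n) (norm_nonneg _) a, norm_nonneg (f x)]
      · nlinarith [one_le_pow₀ (n := n) a, norm_nonneg (f x)])
  obtain ⟨x, h1, h2, h3, h4, h5⟩ := (f0.and ((measure_eq_zero_iff_ae_notMem.1
    (le_zero_iff.1 (fin 0))).and ((measure_eq_zero_iff_ae_notMem.1
    (le_zero_iff.1 (fin (f + f)))).and ((Lp.coeFn_zero ℂ p μ).and (Lp.coeFn_add f f))))).exists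
  simp only [mem_ofPred_eq, mem_union, h4, h5, Pi.zero_apply, Pi.add_apply, ← two_mul, norm_mul,
    norm_zero, not_or, not_and, Complex.norm_ofNat] at h2 h3
  have := norm_pos_iff.2 h1
  rcases le_total ‖φ x‖ 1 with a | a
  exacts [h3.1 a (by linarith), h2.2 a this]

theorem mp (α : ℝ) : MeasurePreserving (fun x => Int.fract (x + α)) (volume.restrict (Icc 0 1))
    (volume.restrict (Icc (0 : ℝ) 1)) := by
  have a : MeasurePreserving ((↑) : ℝ → UnitAddCircle) (volume.restrict (Icc 0 1)) := by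
    simpa [restrict_Ioc_eq_restrict_Icc] using UnitAddCircle.measurePreserving_mk 0
  have m : Measurable fun y : UnitAddCircle => (AddCircle.equivIco 1 0 y : ℝ) :=
    measurable_subtype_coe.comp (AddCircle.measurableEquivIco 1 0).measurable
  have b : MeasurePreserving (fun y : UnitAddCircle => (AddCircle.equivIco 1 0 y : ℝ)) volume
      (volume.restrict (Icc 0 1)) := ⟨m, by
    rw [← a.map_eq, Measure.map_map m a.measurable, Measure.map_congr (g := id), Measure.map_id]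
    rw [← restrict_Ico_eq_restrict_Icc]
    filter_upwards [ae_restrict_mem measurableSet_Ico] with x hx
    simp [AddCircle.coe_equivIco_mk_apply, Int.fract_eq_self.2 hx]⟩
  convert b.comp ((measurePreserving_add_right volume (α : UnitAddCircle)).comp a) using 1
  ext x
  simpa using (AddCircle.coe_equivIco_mk_apply (1 : ℝ) (x + α)).symm

end Pool.Agent.H.MP_e40715_an
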